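import Pool.Agent.Work.MP_c404d3_gt.Pr.Cab

/-!
The volume conjecture for SO(3) knot states fails for a cable knot: for the closure of an explicit
braid on 76 strands (the (55,2)-cable of the connected sum of the figure-eight knot with the
(17,2)-cable of the (1,6)-cable of the figure-eight knot) the sequence has no limit.
-/

namespace Pool.Agent.Results.MP_c404d3_gt.CableCounterexample

open Pool.Agent.Work.MP_c404d3_gt Filter Topology

theorem result : ∃ (N : ℕ) (w : Word), IsKnot N w ∧
    IsKnot (N * 2) (cable 2 w ++ [(0, true)]) ∧ ∀ V : ℝ,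
      ¬ Tendsto (fun r : ℕ => 2 * Real.pi / (r : ℝ) *
        Real.log (stateNorm (N * 2) (cable 2 w ++ [(0, true)]) r)) atTop (𝓝 V) :=
  cab_main

end Pool.Agent.Results.MP_c404d3_gt.CableCounterexample
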